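import Pool.Agent.K3h46.HP.Stm

/-!
# Gluing two factors of the self power
-/

set_option autoImplicit false

open Finset

namespace Pool.Agent.K3h33.HP

open Pool.Agent.K3h46.HP

/-- The two last points. -/
def pt (k : ℕ) (c : Fin 2) : Fin ((k + 1) * 2) := ⟨k * 2 + c, by omega⟩

lemma pt_injective (k : ℕ) : Function.Injective (pt k) := by
  intro c d h
  have h1 : k * 2 + (c : ℕ) = k * 2 + (d : ℕ) := congrArg Fin.val h
  apply Fin.ext
  omega

/-- The extension of a numbering by the two last points. -/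
def eF {k : ℕ} (e : Fin k × Fin 2 ≃ Fin (k * 2)) (x : Fin (k + 1) × Fin 2) : Fin ((k + 1) * 2) :=
  Fin.lastCases (motive := fun _ => Fin ((k + 1) * 2)) (pt k x.2)
    (fun i => ⟨e (i, x.2), by have := (e (i, x.2)).2; omega⟩) x.1

lemma eF_last {k : ℕ} (e : Fin k × Fin 2 ≃ Fin (k * 2)) (c : Fin 2) :
    eF e (Fin.last k, c) = pt k c := by
  simp [eF]

lemma eF_castSucc {k : ℕ} (e : Fin k × Fin 2 ≃ Fin (k * 2)) (i : Fin k) (c : Fin 2) :
    ((eF e (i.castSucc, c) : Fin ((k + 1) * 2)) : ℕ) = e (i, c) := by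
  simp [eF]

lemma eF_injective {k : ℕ} (e : Fin k × Fin 2 ≃ Fin (k * 2)) : Function.Injective (eF e) := by
  rintro ⟨i, c⟩ ⟨j, d⟩ h
  have h' := congrArg Fin.val h
  induction i using Fin.lastCases with
  | last =>
    induction j using Fin.lastCases with
    | last =>
      rw [eF_last, eF_last] at h
      rw [pt_injective k h]
    | cast j =>
      rw [eF_last, eF_castSucc] at h'
      have h1 : ((pt k c : Fin ((k + 1) * 2)) : ℕ) = k * 2 + c := rfl
      have h2 := (e (j, d)).2
      omega
  | cast i =>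
    induction j using Fin.lastCases with
    | last =>
      rw [eF_last, eF_castSucc] at h'
      have h1 : ((pt k d : Fin ((k + 1) * 2)) : ℕ) = k * 2 + d := rfl
      have h2 := (e (i, c)).2
      omega
    | cast j =>
      rw [eF_castSucc, eF_castSucc] at h'
      have h1 := e.injective (Fin.ext h')
      rw [Prod.mk.injEq] at h1
      rw [h1.1, h1.2]

/-- The extension as an equivalence. -/
noncomputable def ext' {k : ℕ} (e : Fin k × Fin 2 ≃ Fin (k * 2)) :
    Fin (k + 1) × Fin 2 ≃ Fin ((k + 1) * 2) :=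
  Equiv.ofBijective (eF e) ((Fintype.bijective_iff_injective_and_card _).2
    ⟨eF_injective e, by simp⟩)

lemma ext'_last {k : ℕ} (e : Fin k × Fin 2 ≃ Fin (k * 2)) (c : Fin 2) :
    ext' e (Fin.last k, c) = pt k c := eF_last e c

lemma ext'_castSucc {k : ℕ} (e : Fin k × Fin 2 ≃ Fin (k * 2)) (i : Fin k) (c : Fin 2) :
    ((ext' e (i.castSucc, c) : Fin ((k + 1) * 2)) : ℕ) = e (i, c) := eF_castSucc e i c

lemma ext'_injective {k : ℕ} : Function.Injective (ext' (k := k)) := by
  intro e e' h
  ext x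
  have h1 := ext'_castSucc e x.1 x.2
  rw [h, ext'_castSucc] at h1
  exact h1.symm

lemma glue_last {k : ℕ} (e : Fin k × Fin 2 ≃ Fin (k * 2)) (c : Fin 2) :
    glueSelf k (ext' e (Fin.last k, c)) = Fin.last (k * 2) := by
  rw [ext'_last, glueSelf, dif_neg]
  simp [pt]

lemma glue_castSucc {k : ℕ} (e : Fin k × Fin 2 ≃ Fin (k * 2)) (i : Fin k) (c : Fin 2) :
    glueSelf k (ext' e (i.castSucc, c)) = (e (i, c)).castSucc := by
  have h1 := ext'_castSucc e i c
  have h2 := (e (i, c)).2
  rw [glueSelf, dif_pos (by omega)]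
  apply Fin.ext
  simp only [Fin.val_castSucc]
  exact h1

lemma exists_ext {k : ℕ} (e : Fin (k + 1) × Fin 2 ≃ Fin ((k + 1) * 2))
    (h0 : e (Fin.last k, 0) = pt k 0) (h1 : e (Fin.last k, 1) = pt k 1) :
    ∃ e' : Fin k × Fin 2 ≃ Fin (k * 2), ext' e' = e := by
  have hlt : ∀ x : Fin k × Fin 2, ((e (x.1.castSucc, x.2) : Fin ((k + 1) * 2)) : ℕ) < k * 2 := by
    intro x
    by_contra hcon
    have h2 := (e (x.1.castSucc, x.2)).2
    have h3 : ((e (x.1.castSucc, x.2) : Fin ((k + 1) * 2)) : ℕ) = k * 2 ∨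
      ((e (x.1.castSucc, x.2) : Fin ((k + 1) * 2)) : ℕ) = k * 2 + 1 := by omega
    rcases h3 with h3 | h3
    · have h4 : e (x.1.castSucc, x.2) = e (Fin.last k, 0) := by
        rw [h0]
        exact Fin.ext h3
      have h5 := congrArg Prod.fst (e.injective h4)
      exact absurd h5 (Fin.castSucc_lt_last x.1).ne
    · have h4 : e (x.1.castSucc, x.2) = e (Fin.last k, 1) := by
        rw [h1]
        exact Fin.ext h3
      have h5 := congrArg Prod.fst (e.injective h4)
      exact absurd h5 (Fin.castSucc_lt_last x.1).ne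
  have hinj : Function.Injective (fun x : Fin k × Fin 2 =>
      (⟨e (x.1.castSucc, x.2), hlt x⟩ : Fin (k * 2))) := by
    rintro ⟨i, c⟩ ⟨j, d⟩ h
    have h2 : ((e (i.castSucc, c) : Fin ((k + 1) * 2)) : ℕ) = e (j.castSucc, d) :=
      Fin.mk.inj_iff.1 h
    have h3 := e.injective (Fin.ext h2)
    rw [Prod.mk.injEq] at h3
    rw [Fin.castSucc_injective k h3.1, h3.2]
  refine ⟨Equiv.ofBijective _ ((Fintype.bijective_iff_injective_and_card _).2
    ⟨hinj, by simp⟩), ?_⟩
  ext ⟨i, c⟩
  induction i using Fin.lastCases with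
  | last =>
    rw [ext'_last]
    fin_cases c
    · exact (congrArg Fin.val h0).symm
    · exact (congrArg Fin.val h1).symm
  | cast i =>
    rw [ext'_castSucc]
    rfl

variable (X : Powers) (w : X.A 2)

/-- The term of a numbering. -/
noncomputable def F {k : ℕ} (e : Fin (k + 1) × Fin 2 ≃ Fin ((k + 1) * 2)) : X.A (k * 2 + 1) :=
  ∏ i : Fin (k + 1), X.edge w (glueSelf k (e (i, 0))) (glueSelf k (e (i, 1)))

lemma F_inv {w : X.A 2} (hs : X.pull ![1, 0] w = w) {k : ℕ}
    (e : Fin (k + 1) × Fin 2 ≃ Fin ((k + 1) * 2))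
    (σ : Equiv.Perm (Fin (k + 1))) (τ : Equiv.Perm (Fin 2)) :
    F X w ((Equiv.prodCongr σ τ).trans e) = F X w e := by
  have hτ : (τ 0 = 0 ∧ τ 1 = 1) ∨ (τ 0 = 1 ∧ τ 1 = 0) := by
    revert τ
    decide
  unfold F
  rw [← Equiv.prod_comp σ (fun i => X.edge w (glueSelf k (e (i, 0))) (glueSelf k (e (i, 1))))]
  refine Finset.prod_congr rfl fun i _ => ?_
  rcases hτ with ⟨h0, h1⟩ | ⟨h0, h1⟩
  · simp [h0, h1]
  · simp only [Equiv.trans_apply, Equiv.prodCongr_apply, Prod.map_apply, h0, h1]
    exact edge_symm X hs _ _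

/-- The term of a numbering of the `2 k` points. -/
noncomputable def F0 {k : ℕ} (e : Fin k × Fin 2 ≃ Fin (k * 2)) : X.A (k * 2) :=
  ∏ i : Fin k, X.edge w (e (i, 0)) (e (i, 1))

/-- The two last points form a pair. -/
lemma push_F_last {w : X.A 2} {t : ℚ} (h : X.IsProjector w t) {k : ℕ}
    (e : Fin k × Fin 2 ≃ Fin (k * 2)) :
    X.push (k * 2) (F X w (ext' e)) = t • F0 X w e := by
  have h1 : F X w (ext' e) = X.pull Fin.castSucc (F0 X w e) *
      X.edge w (Fin.last (k * 2)) (Fin.last (k * 2)) := by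
    unfold F F0
    rw [Fin.prod_univ_castSucc, glue_last, glue_last, map_prod]
    congr 1
    refine Finset.prod_congr rfl fun i _ => ?_
    rw [glue_castSucc, glue_castSucc, pull_edge]
  rw [h1, push_loop X h]

lemma lem2 : ∀ b : Fin 2, b = 0 ∨ b = 1 := by decide

/-- The two last points belong to different pairs. -/
lemma push_F_swap {w : X.A 2} {t : ℚ} (h : X.IsProjector w t) {k : ℕ}
    (e : Fin k × Fin 2 ≃ Fin (k * 2)) (j : Fin k) (b : Fin 2) :
    X.push (k * 2) (F X w ((Equiv.swap (Fin.last k, (1 : Fin 2)) (j.castSucc, b)).trans (ext' e))) =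
      F0 X w e := by
  classical
  set π : Equiv.Perm (Fin (k + 1) × Fin 2) := Equiv.swap (Fin.last k, (1 : Fin 2)) (j.castSucc, b)
    with hπ
  have hlast0 : π (Fin.last k, 0) = (Fin.last k, 0) := by
    apply Equiv.swap_apply_of_ne_of_ne
    · intro h0
      have h1 : (0 : Fin 2) = 1 := congrArg Prod.snd h0
      exact absurd h1 (by decide)
    · intro h0
      exact absurd (congrArg Prod.fst h0) (Fin.castSucc_lt_last j).ne'
  have hlast1 : π (Fin.last k, 1) = (j.castSucc, b) := Equiv.swap_apply_left _ _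
  have hj : π (j.castSucc, b) = (Fin.last k, 1) := Equiv.swap_apply_right _ _
  have hother : ∀ i : Fin k, ∀ c : Fin 2, (i ≠ j ∨ c ≠ b) →
      π (i.castSucc, c) = (i.castSucc, c) := by
    intro i c hic
    apply Equiv.swap_apply_of_ne_of_ne
    · intro h0
      exact absurd (congrArg Prod.fst h0) (Fin.castSucc_lt_last i).ne
    · intro h0
      rcases hic with hic | hic
      · exact hic (Fin.castSucc_injective k (congrArg Prod.fst h0))
      · exact hic (congrArg Prod.snd h0)
  -- the pair of the last point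
  have e1 : X.edge w (glueSelf k (ext' e (π (Fin.last k, 0)))) (glueSelf k (ext' e (π (Fin.last k, 1)))) =
      X.edge w (e (j, b)).castSucc (Fin.last (k * 2)) := by
    rw [hlast0, hlast1, glue_last, glue_castSucc]
    exact edge_symm X h.symm _ _
  -- the pair `j`
  obtain ⟨c, hc, e2, e3⟩ : ∃ c : Fin 2, c ≠ b ∧
      X.edge w (glueSelf k (ext' e (π (j.castSucc, 0)))) (glueSelf k (ext' e (π (j.castSucc, 1)))) =
      X.edge w (e (j, c)).castSucc (Fin.last (k * 2)) ∧
      X.edge w (e (j, b)) (e (j, c)) = X.edge w (e (j, 0)) (e (j, 1)) := by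
    rcases lem2 b with rfl | rfl
    · refine ⟨1, by decide, ?_, rfl⟩
      rw [hj, hother j 1 (Or.inr (by decide)), glue_last, glue_castSucc]
      exact edge_symm X h.symm _ _
    · refine ⟨0, by decide, ?_, edge_symm X h.symm _ _⟩
      rw [hj, hother j 0 (Or.inr (by decide)), glue_last, glue_castSucc]
  have h1 : F X w (π.trans (ext' e)) =
      X.pull Fin.castSucc (∏ i ∈ Finset.univ.erase j, X.edge w (e (i, 0)) (e (i, 1))) *
      (X.edge w (e (j, b)).castSucc (Fin.last (k * 2)) *
        X.edge w (e (j, c)).castSucc (Fin.last (k * 2))) := by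
    unfold F
    simp only [Equiv.trans_apply]
    rw [Fin.prod_univ_castSucc, e1, ← Finset.mul_prod_erase Finset.univ _ (Finset.mem_univ j), e2,
      map_prod]
    have e4 : ∀ i ∈ Finset.univ.erase j,
        X.edge w (glueSelf k (ext' e (π (i.castSucc, 0)))) (glueSelf k (ext' e (π (i.castSucc, 1)))) =
        X.pull Fin.castSucc (X.edge w (e (i, 0)) (e (i, 1))) := by
      intro i hi
      rw [hother i 0 (Or.inl (Finset.ne_of_mem_erase hi)),
        hother i 1 (Or.inl (Finset.ne_of_mem_erase hi)), glue_castSucc, glue_castSucc, pull_edge]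
    rw [Finset.prod_congr rfl e4]
    ring
  rw [h1, push_compose X h, e3]
  exact (mul_comm _ _).trans (Finset.mul_prod_erase Finset.univ
    (fun i => X.edge w (e (i, 0)) (e (i, 1))) (Finset.mem_univ j))

/-- The sum over the numberings with given places of the last two points. -/
lemma sum_fixed {M : Type*} [AddCommMonoid M] {k : ℕ}
    (f : (Fin (k + 1) × Fin 2 ≃ Fin ((k + 1) * 2)) → M) (q : Fin (k + 1) × Fin 2)
    (hq : q ≠ (Fin.last k, 0)) :
    ∑ e with e (Fin.last k, 0) = pt k 0 ∧ e q = pt k 1, f e =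
      ∑ e : Fin k × Fin 2 ≃ Fin (k * 2), f ((Equiv.swap (Fin.last k, (1 : Fin 2)) q).trans (ext' e)) := by
  classical
  symm
  have hne : ((Fin.last k, 0) : Fin (k + 1) × Fin 2) ≠ (Fin.last k, 1) := by
    intro h0
    have h1 : (0 : Fin 2) = 1 := congrArg Prod.snd h0
    exact absurd h1 (by decide)
  have h0 : Equiv.swap (Fin.last k, (1 : Fin 2)) q (Fin.last k, 0) = (Fin.last k, 0) :=
    Equiv.swap_apply_of_ne_of_ne hne (Ne.symm hq)
  refine Finset.sum_bij (fun e _ => (Equiv.swap (Fin.last k, (1 : Fin 2)) q).trans (ext' e))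
    ?_ ?_ ?_ (fun _ _ => rfl)
  · intro e _
    simp only [Finset.mem_filter, Finset.mem_univ, true_and, Equiv.trans_apply]
    rw [h0, Equiv.swap_apply_right, ext'_last, ext'_last]
    exact ⟨rfl, rfl⟩
  · intro e _ e' _ h
    apply ext'_injective
    ext x
    have h1 := congrArg (fun g => g (Equiv.swap (Fin.last k, (1 : Fin 2)) q x)) h
    simp only [Equiv.trans_apply, Equiv.swap_apply_self] at h1
    rw [h1]
  · intro e he
    simp only [Finset.mem_filter, Finset.mem_univ, true_and] at he
    obtain ⟨e', he'⟩ := exists_ext ((Equiv.swap (Fin.last k, (1 : Fin 2)) q).trans e) (by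
      rw [Equiv.trans_apply, h0]
      exact he.1) (by
      rw [Equiv.trans_apply, Equiv.swap_apply_left]
      exact he.2)
    refine ⟨e', Finset.mem_univ _, ?_⟩
    rw [he']
    ext x
    simp

/-- HTR. Gluing two factors of the self power. -/
theorem t_HTR : StmHTR := by
  classical
  intro X w t h k
  have h1 : X.push (k * 2) (X.pull (glueSelf k) (X.selfPower w (k + 1))) =
      ∑ e : Fin (k + 1) × Fin 2 ≃ Fin ((k + 1) * 2), X.push (k * 2) (F X w e) := by
    unfold Powers.selfPower F
    rw [map_sum, map_sum]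
    refine Finset.sum_congr rfl fun e _ => ?_
    rw [map_prod]
    congr 1
    refine Finset.prod_congr rfl fun i _ => ?_
    rw [pull_edge]
  set T : (Fin (k + 1) × Fin 2 ≃ Fin ((k + 1) * 2)) → X.A (k * 2) :=
    fun e => X.push (k * 2) (F X w e) with hT
  have hself : ∑ e : Fin k × Fin 2 ≃ Fin (k * 2), F0 X w e = X.selfPower w k := rfl
  -- the place of the first of the two points
  have h2 : ∀ p : Fin (k + 1) × Fin 2, ∑ e with e.symm (pt k 0) = p, T e =
      ∑ e with e.symm (pt k 0) = (Fin.last k, 0), T e := by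
    intro p
    set π : Equiv.Perm (Fin (k + 1) × Fin 2) :=
      Equiv.prodCongr (Equiv.swap (Fin.last k) p.1) (Equiv.swap 0 p.2) with hπ
    have hπp : π (Fin.last k, 0) = p := by
      rw [hπ]
      simp
    refine Finset.sum_bij (fun e _ => π.trans e) ?_ ?_ ?_ ?_
    · intro e he
      simp only [Finset.mem_filter, Finset.mem_univ, true_and] at he ⊢
      rw [Equiv.symm_trans_apply, he, ← hπp, Equiv.symm_apply_apply]
    · intro e _ e' _ hee
      ext x
      have h3 := congrArg (fun g => g (π.symm x)) hee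
      simp only [Equiv.trans_apply, Equiv.apply_symm_apply] at h3
      rw [h3]
    · intro e he
      simp only [Finset.mem_filter, Finset.mem_univ, true_and] at he
      refine ⟨π.symm.trans e, ?_, ?_⟩
      · simp only [Finset.mem_filter, Finset.mem_univ, true_and]
        rw [Equiv.symm_trans_apply, he, Equiv.symm_symm, hπp]
      · ext x
        simp
    · intro e _
      change X.push (k * 2) (F X w e) = X.push (k * 2) (F X w (π.trans e))
      rw [F_inv X h.symm]
  have h3 : ∑ e, T e = ((k + 1) * 2) • ∑ e with e.symm (pt k 0) = (Fin.last k, 0), T e := by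
    rw [← Finset.sum_fiberwise Finset.univ (fun e => e.symm (pt k 0)) T,
      Finset.sum_congr rfl fun p _ => h2 p, Finset.sum_const, Finset.card_univ]
    simp
  -- the place of the second of the two points
  have h4 : ∀ q : Fin (k + 1) × Fin 2,
      ∑ e ∈ Finset.univ.filter (fun e : Fin (k + 1) × Fin 2 ≃ Fin ((k + 1) * 2) =>
        e.symm (pt k 0) = (Fin.last k, 0)) with e.symm (pt k 1) = q, T e =
      ∑ e with e (Fin.last k, 0) = pt k 0 ∧ e q = pt k 1, T e := by
    intro q
    rw [Finset.filter_filter]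
    refine Finset.sum_congr ?_ fun _ _ => rfl
    ext e
    simp only [Finset.mem_filter, Finset.mem_univ, true_and]
    rw [Equiv.symm_apply_eq, Equiv.symm_apply_eq]
    exact ⟨fun h => ⟨h.1.symm, h.2.symm⟩, fun h => ⟨h.1.symm, h.2.symm⟩⟩
  have h5 : ∑ e with e.symm (pt k 0) = (Fin.last k, 0), T e = (t + 2 * k) • X.selfPower w k := by
    rw [← Finset.sum_fiberwise _ (fun e => e.symm (pt k 1)) T,
      Finset.sum_congr rfl fun q _ => h4 q, Fintype.sum_prod_type, Fin.sum_univ_castSucc]
    have e1 : ∀ j : Fin k, ∀ b : Fin 2,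
        ∑ e with e (Fin.last k, 0) = pt k 0 ∧ e (j.castSucc, b) = pt k 1, T e =
        X.selfPower w k := by
      intro j b
      rw [sum_fixed T (j.castSucc, b) (by
        intro h0
        exact absurd (congrArg Prod.fst h0) (Fin.castSucc_lt_last j).ne), ← hself]
      exact Finset.sum_congr rfl fun e _ => push_F_swap X h e j b
    have e2 : ∑ e with e (Fin.last k, 0) = pt k 0 ∧ e (Fin.last k, 1) = pt k 1, T e =
        t • X.selfPower w k := by
      rw [sum_fixed T (Fin.last k, 1) (by
        intro h0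
        have h1 : (1 : Fin 2) = 0 := congrArg Prod.snd h0
        exact absurd h1 (by decide)), ← hself, Finset.smul_sum]
      refine Finset.sum_congr rfl fun e _ => ?_
      rw [Equiv.swap_self, Equiv.refl_trans]
      exact push_F_last X h e
    have e3 : ∑ e with e (Fin.last k, 0) = pt k 0 ∧ e (Fin.last k, 0) = pt k 1, T e = 0 := by
      rw [Finset.filter_false_of_mem, Finset.sum_empty]
      intro e _ hcon
      have h6 := hcon.1.symm.trans hcon.2
      exact absurd (pt_injective k h6) (by decide)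
    simp only [Fin.sum_univ_two, e1, e2, e3]
    rw [Finset.sum_const, Finset.card_univ, Fintype.card_fin, zero_add, ← two_nsmul, smul_smul,
      ← Nat.cast_smul_eq_nsmul ℚ, ← add_smul]
    congr 1
    push_cast
    ring
  rw [h1, h3, h5, ← Nat.cast_smul_eq_nsmul ℚ, smul_smul]
  congr 1
  push_cast
  ring

end Pool.Agent.K3h33.HP
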